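import Pool.Agent.Helper79.PL.Desc

/-!
# Project PL: a cyclic automorphism of a level which fixes a place (general form)
-/

set_option autoImplicit false

namespace Pool.Agent.PRL

open VC IntermediateField Pool.Agent.SC
open Pool.Agent.M (Moves OverPl)

noncomputable section

variable {E U : Type} [Field E] [Field U] [Algebra E U] {L N : IntermediateField E U} {ℓ : ℕ}

/-- the order of `r ^ ℓ` is not divisible by `ℓ` -/
theorem ndvd79 [IsAlgClosed E] (hℓ : ℓ ≠ 0) (hle : L ≤ N) (hL : IsFunctionField E L)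
    (hN : IsFunctionField E N) (Q : Place E N) (b₁ : Place E L) (hO : OverPl b₁ Q) (ι : U ≃+* U)
    (hιE : ∀ e : E, ι (algebraMap E U e) = algebraMap E U e) (hιN : ∀ z ∈ N, ι z ∈ N)
    (hιL : ∀ z ∈ L, ι z = z) (hQ : Moves ι N Q Q) {r : U} (hrN : r ∈ N) (hr0 : r ≠ 0)
    {ζ : E} (hζ : ζ ≠ 1) (hιr : ι r = algebraMap E U ζ * r) (f : L) (hf : (f : U) = r ^ ℓ) :
    ¬ (ℓ : ℤ) ∣ ord b₁.ring f := by
  rintro ⟨m, hm⟩
  let j : L →ₐ[E] N := IntermediateField.inclusion hle
  have hj : ∀ x : L, ((j x : N) : U) = x := fun x => rfl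
  have hb₁ : ∀ x : L, x ∈ b₁.ring ↔ j x ∈ Q.ring := fun x => hO x x.2 (hle x.2)
  obtain ⟨t, ht0, ht⟩ := FF.exists_ord_eq hL b₁ m
  have hf0 : f ≠ 0 := by
    rintro rfl
    exact pow_ne_zero ℓ hr0 hf.symm
  set u : L := f / t ^ ℓ with hu
  have hu0 : u ≠ 0 := div_ne_zero hf0 (pow_ne_zero _ ht0)
  have hou : ord b₁.ring u = 0 := by
    rw [hu, FF.ord_div hL b₁ hf0 (pow_ne_zero _ ht0), FF.ord_pow hL b₁ ht0, hm, ht, sub_self]
  have hu1 : j u ∈ Q.ring := (hb₁ u).1 ((FF.ord_nonneg_iff hL b₁ hu0).1 (by rw [hou]))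
  have hu2 : j u⁻¹ ∈ Q.ring := (hb₁ _).1 ((FF.ord_nonneg_iff hL b₁ (inv_ne_zero hu0)).1 (by
    rw [FF.ord_inv hL b₁ hu0, hou, neg_zero]))
  set v : N := (⟨r, hrN⟩ : N) / j t with hv
  have hjt : j t ≠ 0 := (map_ne_zero j).2 ht0
  have hv2 : v ^ ℓ = j u := by
    rw [hv, hu, div_pow, map_div₀, map_pow]
    congr 1
    apply Subtype.ext
    rw [hj, hf]
    rfl
  have hval : Q.ring.valuation (j u) = 1 := by
    apply le_antisymm
    · rw [ValuationSubring.valuation_le_one_iff]
      exact hu1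
    · have h2 : Q.ring.valuation (j u)⁻¹ ≤ 1 := by
        rw [← map_inv₀ j, ValuationSubring.valuation_le_one_iff]
        exact hu2
      have h3 : Q.ring.valuation (j u) ≠ 0 := by
        rw [Valuation.ne_zero_iff]
        exact (map_ne_zero j).2 hu0
      rw [map_inv₀] at h2
      exact (inv_le_one₀ (zero_lt_iff.2 h3)).1 h2
  have hvv : Q.ring.valuation v = 1 := by
    have h1 : Q.ring.valuation v ^ ℓ = 1 := by
      rw [← map_pow, hv2, hval]
    exact (pow_eq_one_iff_of_nonneg zero_le hℓ).1 h1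
  let s : N → N := fun x => ⟨ι x, hιN x x.2⟩
  have hs : ∀ x, ((s x : N) : U) = ι x := fun x => rfl
  refine not_unit_of_fixed (E := E) (R := Q.ring) (σ := s) (v := v)
    (ξ := ζ) ?_ Q.algebraMap_mem ?_ ?_ hζ ?_ ?_ ?_
  · intro c x
    apply Subtype.ext
    rw [hs]
    change ι (algebraMap E U c + x) = algebraMap E U c + ι x
    rw [map_add, hιE]
  · intro x hx
    exact FF.exists_residue hN Q hx
  · intro x hx
    rw [ValuationSubring.mem_nonunits_iff_or] at hx ⊢
    rcases hx with rfl | hx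
    · left
      apply Subtype.ext
      rw [hs]
      exact map_zero ι
    · right
      intro h1
      apply hx
      have h2 := hQ ((x⁻¹ : N) : U) (x⁻¹).2 (hιN _ (x⁻¹).2)
      apply h2.2
      convert h1 using 1
      apply Subtype.ext
      change ι ((x : U)⁻¹) = (ι x)⁻¹
      exact map_inv₀ ι _
  · apply Subtype.ext
    rw [hs]
    have e1 : (v : U) = r / (t : U) := rfl
    have e2 : ((algebraMap E N ζ * v : N) : U) = algebraMap E U ζ * (v : U) := rfl
    rw [e2, e1, map_div₀, hιr, hιL _ t.2, mul_div_assoc]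
  · rw [← ValuationSubring.valuation_le_one_iff, hvv]
  · rw [ValuationSubring.mem_nonunits_iff, hvv]
    exact lt_irrefl _

/-- the place above is unique -/
theorem uniq_gen79 [IsAlgClosed E] [CharZero E] (hℓ : 0 < ℓ) (hN : IsFunctionField E N)
    (Q Q' : Place E N)
    (b₁ : Place E L) (hO : OverPl b₁ Q) (hO' : OverPl b₁ Q') (ι : U ≃+* U)
    (hιN : ∀ z ∈ N, ι z ∈ N) (hιp : ∀ z ∈ N, (ι ^ ℓ) z = z) (hfix : ∀ z ∈ N, ι z = z → z ∈ L)
    (hQ : Moves ι N Q Q) : Q' = Q := by
  classical
  -- the automorphism of `N`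
  let s : N →+* N :=
    { toFun := fun x => ⟨ι x, hιN x x.2⟩
      map_one' := Subtype.ext (map_one ι)
      map_mul' := fun x y => Subtype.ext (map_mul ι _ _)
      map_zero' := Subtype.ext (map_zero ι)
      map_add' := fun x y => Subtype.ext (map_add ι _ _) }
  have hs : ∀ x : N, ((s x : N) : U) = ι x := fun x => rfl
  have hsj : ∀ (j : ℕ) (x : N), (((s^[j]) x : N) : U) = (ι ^ j) x := by
    intro j
    induction j with
    | zero => exact fun x => rfl
    | succ j ih =>
      intro x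
      rw [Function.iterate_succ_apply', hs, ih, pow_succ']
      rfl
  have hsℓ : ∀ x : N, (s^[ℓ]) x = x := fun x => Subtype.ext (by rw [hsj, hιp _ x.2])
  have hsQ : ∀ x : N, x ∈ Q.ring → s x ∈ Q.ring := fun x hx => (hQ x x.2 (s x).2).1 hx
  have hsjQ : ∀ (j : ℕ) (x : N), x ∈ Q.ring → (s^[j]) x ∈ Q.ring := by
    intro j
    induction j with
    | zero => exact fun x hx => hx
    | succ j ih =>
      intro x hx
      rw [Function.iterate_succ_apply']
      exact hsQ _ (ih x hx)
  have hLring : ∀ x : N, (x : U) ∈ L → x ∈ Q.ring → x ∈ Q'.ring := by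
    intro x hx hxQ
    have h1 : (⟨x, hx⟩ : L) ∈ b₁.ring := (hO _ hx x.2).2 hxQ
    exact (hO' _ hx x.2).1 h1
  have hkey : Q.ring ≤ Q'.ring := by
    intro z hz
    let p : Polynomial N := ∏ j ∈ Finset.range ℓ, (Polynomial.X - Polynomial.C ((s^[j]) z))
    have hpm : p.Monic := Polynomial.monic_prod_of_monic _ _ fun j _ => Polynomial.monic_X_sub_C _
    have hpz : p.eval z = 0 := by
      change (∏ j ∈ Finset.range ℓ, (Polynomial.X - Polynomial.C ((s^[j]) z))).eval z = 0
      rw [Polynomial.eval_prod]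
      refine Finset.prod_eq_zero (Finset.mem_range.2 hℓ) ?_
      rw [Polynomial.eval_sub, Polynomial.eval_X, Polynomial.eval_C]
      exact sub_self z
    have hps : p.map s = p := by
      change (∏ j ∈ Finset.range ℓ, (Polynomial.X - Polynomial.C ((s^[j]) z))).map s = _
      rw [Polynomial.map_prod]
      have h1 : ∀ j ∈ Finset.range ℓ,
          (Polynomial.X - Polynomial.C ((s^[j]) z)).map s =
            Polynomial.X - Polynomial.C ((s^[j + 1]) z) := by
        intro j _
        rw [Polynomial.map_sub, Polynomial.map_X, Polynomial.map_C, Function.iterate_succ_apply']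
      rw [Finset.prod_congr rfl h1]
      have h2 := Finset.prod_range_succ (fun j => Polynomial.X - Polynomial.C ((s^[j]) z)) ℓ
      have h3 := Finset.prod_range_succ' (fun j => Polynomial.X - Polynomial.C ((s^[j]) z)) ℓ
      rw [h2, hsℓ z] at h3
      exact (mul_right_cancel₀ (Polynomial.X_sub_C_ne_zero z) h3).symm
    have hcL : ∀ i, ((p.coeff i : N) : U) ∈ L := by
      intro i
      apply hfix _ (p.coeff i).2
      rw [← hs, ← Polynomial.coeff_map, hps]
    have hcQ : ∀ i, p.coeff i ∈ Q.ring := by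
      have h1 : p ∈ Polynomial.lifts (Q.ring.subtype) := by
        refine Subsemiring.prod_mem _ fun j _ => ?_
        refine Subring.sub_mem (Polynomial.liftsRing (Q.ring.subtype)) ?_ ?_
        · exact Polynomial.X_mem_lifts _
        · exact Polynomial.C_mem_lifts (Q.ring.subtype) ⟨_, hsjQ j z hz⟩
      intro i
      rw [Polynomial.lifts_iff_coeff_lifts] at h1
      obtain ⟨y, hy⟩ := h1 i
      rw [← hy]
      exact y.2
    have hcQ' : ∀ i, p.coeff i ∈ Q'.ring := fun i => hLring _ (hcL i) (hcQ i)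
    -- `z` is integral over `Q'`
    have hlift : p ∈ Polynomial.lifts (algebraMap Q'.ring N) := by
      rw [Polynomial.lifts_iff_coeff_lifts]
      intro i
      exact ⟨⟨_, hcQ' i⟩, rfl⟩
    obtain ⟨q, hq, -, hqm⟩ := Polynomial.lifts_and_degree_eq_and_monic hlift hpm
    have hint : IsIntegral Q'.ring z := by
      refine ⟨q, hqm, ?_⟩
      rw [← Polynomial.eval_map, hq, hpz]
    obtain ⟨y, hy⟩ := IsIntegrallyClosed.isIntegral_iff.1 hint
    rw [← hy]
    exact y.2
  exact (FF.place_eq_of_le hN hkey).symm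

end

end Pool.Agent.PRL
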