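import Pool.Agent.Helper13.PLF.Defs
import Pool.Agent.Helper79.PL.Pla

/-!
# Project PL, block KF (`StmtKF`): the field `KI K0 N ι Φ₀`

Proof. `ι` is an automorphism of `U` over `L0` of order `ℓ` on `N` with `ι r = ζ r`, `ζ` a primitive
`ℓ`-th root of unity, which commutes with the action on `N`. An element of `N` fixed by `ι` is a
linear combination over `E` of elements fixed by `ι` and by the action (`descent_gen79`), and these
are in `KI`. So `E (KI)` is the fixed field of `ι` in `N`, and `N = E (KI)(r)` (`expand79`).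
-/

set_option autoImplicit false

namespace Pool.Agent.PRL

open VC IntermediateField NumberField Pool.Agent.SC
open Pool.Agent.L (L0 MM)
open Pool.Agent.LN (Geo Act)
open Pool.Agent.M (Moves OverPl inL0)
open Pool.Agent.ML (HasMu BPl)
open Pool.Agent.TOW (Au AuE)

noncomputable section

/-- **BLOCK KF.** -/
theorem kF : StmtKF := by
  intro k K0 E U _ _ _ _ _ _ _ _ _ _ _ _ ℓ h r hℓp hμ geo N hN hMN ι hI c₀ Φ₀ hc₀ hΦ₀ hcomm
  obtain ⟨hιE, ⟨ζ, hζ, hιr⟩, hιp⟩ := hI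
  have hℓ : 0 < ℓ := hℓp.pos
  have hcl : IsAlgClosed E := geo.clE
  have halg : Algebra.IsAlgebraic k E := geo.algE
  have hch : CharZero E := charZero_of_injective_algebraMap (algebraMap k E).injective
  have hchU : CharZero U := charZero_of_injective_algebraMap (algebraMap E U).injective
  have hst : ∀ T : U ≃+* U, Au E K0 T → ∀ z ∈ N, T z ∈ N := fun T hT => hN.stab T hT.fixK hT.presE
  have hιN := hst ι hιE.au79
  have hζ1 : ζ ≠ 1 := hζ.ne_one hℓp.one_lt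
  have hζU : IsPrimitiveRoot (algebraMap E U ζ) ℓ := hζ.map_of_injective (algebraMap E U).injective
  have hr0 : r ≠ 0 := by
    rintro rfl
    apply geo.rnot 1 one_pos hℓp.one_lt
    rw [pow_one]
    exact zero_mem _
  have hrN : r ∈ N := hMN (subset_adjoin _ _ (Or.inr rfl))
  -- the elements fixed by `ι`
  let P : U → Prop := fun z => z ∈ N ∧ ι z = z
  have hconst : ∀ g (e : E), Φ₀ g (algebraMap E U e) = algebraMap E U (g e) := hΦ₀.const
  have hactAu : ∀ g : E ≃ₐ[k] E, Au E K0 (Φ₀ g) := fun g => ⟨hΦ₀.fixK g, fun e => ⟨g e, hΦ₀.const g e⟩⟩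
  have hPact : ∀ g z, P z → P (Φ₀ g z) := fun g z hz =>
    ⟨hst _ (hactAu g) z hz.1, by rw [← hcomm g z hz.1, hz.2]⟩
  have hKP : ∀ z, P z → (∀ g, Φ₀ g z = z) → z ∈ KI K0 N ι Φ₀ := by
    intro z hz hfix
    refine ⟨hz.1, fun T _ hT => ?_⟩
    rcases hT with rfl | ⟨g, rfl⟩
    · exact hz.2
    · exact hfix g
  have hPK : ∀ z ∈ KI K0 N ι Φ₀, P z := fun z hz => ⟨hz.1, hz.2 ι hιE.au79 (Or.inl rfl)⟩
  have hK0 : ∀ x : K0, algebraMap K0 U x ∈ KI K0 N ι Φ₀ := fun x =>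
    ⟨hN.le x, fun T hT _ => hT.fixK x⟩
  refine ⟨hK0, fun h' hh' => ?_⟩
  have hP0 : P 0 := ⟨zero_mem _, map_zero ι⟩
  have hPadd : ∀ z w, P z → P w → P (z + w) := fun z w hz hw =>
    ⟨add_mem hz.1 hw.1, by rw [map_add, hz.2, hw.2]⟩
  have hPsmul : ∀ (e : E) z, P z → P (algebraMap E U e * z) := fun e z hz =>
    ⟨mul_mem (IntermediateField.algebraMap_mem _ _) hz.1, by rw [map_mul, hz.2, hιE.fixE]⟩
  have hKL : ∀ z, P z → (∀ g, Φ₀ g z = z) → z ∈ L0 E (KI K0 N ι Φ₀) (U := U) := by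
    intro z hz hf
    exact subset_adjoin _ _ ⟨⟨z, hKP z hz hf⟩, rfl⟩
  have hdesc : ∀ z : U, P z → z ∈ L0 E (KI K0 N ι Φ₀) (U := U) := fun z hz =>
    descent_gen79 hconst hΦ₀.cont hP0 hPadd hPsmul hPact hKL hz
  have hLP : ∀ z ∈ L0 E (KI K0 N ι Φ₀) (U := U), P z := by
    intro z hz
    change z ∈ IntermediateField.adjoin E _ at hz
    induction hz using IntermediateField.adjoin_induction with
    | mem x hx =>
      obtain ⟨y, rfl⟩ := hx
      exact hPK y y.2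
    | algebraMap e => exact ⟨IntermediateField.algebraMap_mem _ _, hιE.fixE e⟩
    | add x y _ _ h1 h2 => exact hPadd _ _ h1 h2
    | inv x _ h1 => exact ⟨inv_mem h1.1, by rw [map_inv₀, h1.2]⟩
    | mul x y _ _ h1 h2 => exact ⟨mul_mem h1.1 h2.1, by rw [map_mul, h1.2, h2.2]⟩
  have hle : L0 E (KI K0 N ι Φ₀) (U := U) ≤ N := fun z hz => (hLP z hz).1
  have hLM : L0 E (KI K0 N ι Φ₀) (U := U) ≤ MM E (KI K0 N ι Φ₀) r :=
    adjoin.mono _ _ _ Set.subset_union_left
  have hrM : r ∈ MM E (KI K0 N ι Φ₀) r := subset_adjoin _ _ (Or.inr rfl)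
  have hMM : MM E (KI K0 N ι Φ₀) r = N := by
    apply le_antisymm
    · apply adjoin_le_iff.2
      rintro z (⟨y, rfl⟩ | hz)
      · exact y.2.1
      · rw [Set.mem_singleton_iff] at hz
        rw [hz]
        exact hrN
    · intro z hz
      rw [expand79 hℓ hζU (hιE.fixE ζ) hr0 hιr z]
      refine mul_mem (inv_mem (_root_.natCast_mem _ ℓ)) (sum_mem fun i _ => mul_mem (pow_mem hrM i) ?_)
      have h1 : z * (r ^ i)⁻¹ ∈ N := mul_mem hz (inv_mem (pow_mem hrN i))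
      exact hLM (hdesc _ ⟨tr_mem79 hιN h1, tr_fix79 hιp h1⟩)
  have hK0L : ∀ x : K0, algebraMap K0 U x ∈ L0 E (KI K0 N ι Φ₀) (U := U) := fun x =>
    subset_adjoin _ _ ⟨⟨algebraMap K0 U x, hK0 x⟩, rfl⟩
  have hL0L : L0 E K0 (U := U) ≤ L0 E (KI K0 N ι Φ₀) (U := U) := by
    apply adjoin_le_iff.2
    rintro _ ⟨x, rfl⟩
    exact hK0L x
  have hLff : IsFunctionField E (L0 E (KI K0 N ι Φ₀) (U := U)) := by
    obtain ⟨t, ht, -⟩ := geo.ff
    refine TOW.ff_of_le79 hle hN.ff ⟨t, hL0L t.2, ?_⟩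
    exact (transcendental_algebraMap_iff (S := L0 E K0 (U := U)) (A := U)
      (algebraMap (L0 E K0 (U := U)) U).injective).2 ht
  have hrL : ∀ i : ℕ, 0 < i → i < ℓ → r ^ i ∉ L0 E (KI K0 N ι Φ₀) (U := U) := by
    intro i hi0 hi h1
    have h2 := (hLP _ h1).2
    rw [map_pow, hιr, mul_pow] at h2
    have h3 : algebraMap E U ζ ^ i = 1 := by
      have h4 : r ^ i ≠ 0 := pow_ne_zero _ hr0
      exact mul_right_cancel₀ h4 (by rw [h2, one_mul])
    exact hζU.pow_ne_one_of_pos_of_lt hi0.ne' hi h3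
  have hrpow : r ^ ℓ = algebraMap (KI K0 N ι Φ₀) U h' := by
    rw [geo.rpow]
    exact hh'.symm
  have hcov : IsCover (MM E (KI K0 N ι Φ₀) r) := by
    rw [hMM]
    exact TOW.isCover_mono79 geo.cover hMN hN.ff
  have hnr : ∀ y : MM E (KI K0 N ι Φ₀) r, IntermediateField.adjoin E {y} ≠ ⊤ := by
    intro y hy
    have h1 : N = E⟮(y : U)⟯ := by
      have h2 := congrArg (IntermediateField.map (MM E (KI K0 N ι Φ₀) r).val) hy
      rw [IntermediateField.adjoin_map, Set.image_singleton] at h2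
      rw [← AlgHom.fieldRange_eq_map, IntermediateField.fieldRange_val] at h2
      exact hMM.symm.trans h2.symm
    obtain ⟨m, hm, hm'⟩ := TOW.luroth79 (MM E K0 r) (y : U) (hMN.trans h1.le)
    apply geo.nonrat ⟨m, hm⟩
    apply top_le_iff.1
    rintro ⟨z, hz⟩ -
    have h3 : (E⟮(⟨m, hm⟩ : MM E K0 r)⟯).map (MM E K0 r).val = E⟮m⟯ := by
      rw [IntermediateField.adjoin_map, Set.image_singleton]
      rfl
    have h4 : z ∈ E⟮m⟯ := by
      rw [hm']
      exact hz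
    rw [← h3] at h4
    obtain ⟨w, hw, hw'⟩ := h4
    have h5 : w = ⟨z, hz⟩ := Subtype.ext hw'
    rw [← h5]
    exact hw
  have hnormal : Normal (KI K0 N ι Φ₀) U := by
    have hn := geo.normal
    let f : K0 →+* KI K0 N ι Φ₀ := (algebraMap K0 U).codRestrict (KI K0 N ι Φ₀).toSubfield hK0
    let i1 : Algebra K0 (KI K0 N ι Φ₀) := f.toAlgebra
    have i2 : IsScalarTower K0 (KI K0 N ι Φ₀) U := IsScalarTower.of_algebraMap_eq fun x => rfl
    exact Normal.tower_top_of_normal K0 (KI K0 N ι Φ₀) U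
  exact ⟨⟨halg, hcl, hLff, hrpow, hrL, hcov, hnr, hnormal⟩, hMM,
    fun z => ⟨fun hz => hLP z hz, fun hz => hdesc z hz⟩⟩

end

end Pool.Agent.PRL
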