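import Pool.Agent.Helper79.TW.KGb
import Pool.Agent.Helper79.TW.KGc
import Mathlib.RingTheory.Polynomial.Vieta

/-!
# Project PL: descent of the field of constants, cyclic automorphisms of a level (general forms)
-/

set_option autoImplicit false

namespace Pool.Agent.PRL

open VC IntermediateField Pool.Agent.SC
open Pool.Agent.M (Moves OverPl)

noncomputable section

section desc

variable {k E U : Type} [Field k] [Field E] [Field U] [Algebra k E] [Algebra E U]

/-- **Descent of the field of constants**: an element with the property `P`, which is stable under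
sums, multiplication by constants, and the action `Φ`, is a combination with constant coefficients of
elements with the property `P` which are fixed by the action. -/
theorem descent_gen79 [CharZero k] [IsAlgClosed E] [Algebra.IsAlgebraic k E]
    {Φ : (E ≃ₐ[k] E) →* (U ≃+* U)}
    (hconst : ∀ g (e : E), Φ g (algebraMap E U e) = algebraMap E U (g e))
    (hcont : ∀ z : U, ∃ L : IntermediateField k E, FiniteDimensional k L ∧
      ∀ g : E ≃ₐ[k] E, (∀ x ∈ L, g x = x) → Φ g z = z)
    {P : U → Prop} (h0 : P 0) (hadd : ∀ z w, P z → P w → P (z + w))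
    (hsmul : ∀ (e : E) z, P z → P (algebraMap E U e * z)) (hact : ∀ g z, P z → P (Φ g z))
    {L' : IntermediateField E U} (hL' : ∀ z, P z → (∀ g, Φ g z = z) → z ∈ L')
    {z : U} (hz : P z) : z ∈ L' := by
  classical
  obtain ⟨L, hL, hLz⟩ := hcont z
  obtain ⟨α, hα⟩ := Field.exists_primitive_element k L
  have hfix : ∀ g : E ≃ₐ[k] E, g (α : E) = α → Φ g z = z := by
    intro g hg
    apply hLz
    intro x hx
    have hx' : (⟨x, hx⟩ : L) ∈ k⟮α⟯ := by
      rw [hα]
      exact IntermediateField.mem_top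
    have key : ∀ y : L, y ∈ k⟮α⟯ → g (y : E) = y := by
      intro y hy
      induction hy using IntermediateField.adjoin_induction with
      | mem y hy =>
        rw [Set.mem_singleton_iff] at hy
        rw [hy]
        exact hg
      | algebraMap a => exact g.commutes a
      | add y w _ _ ihy ihw =>
        push_cast
        rw [map_add, ihy, ihw]
      | inv y _ ih =>
        push_cast
        rw [map_inv₀, ih]
      | mul y w _ _ ihy ihw =>
        push_cast
        rw [map_mul, ihy, ihw]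
    exact key ⟨x, hx⟩ hx'
  set a : E := (α : E) with ha
  have hclos : IsAlgClosure k E := ⟨inferInstance, inferInstance⟩
  have hnorm : Normal k E := IsAlgClosure.normal k E
  have haint : IsIntegral k a := (Algebra.IsAlgebraic.isAlgebraic a).isIntegral
  have hmp : minpoly k a ≠ 0 := minpoly.ne_zero haint
  set R : Finset E := ((minpoly k a).aroots E).toFinset with hR
  have hmemR : ∀ β : E, β ∈ R ↔ Polynomial.aeval β (minpoly k a) = 0 := by
    intro β
    rw [hR, Multiset.mem_toFinset, Polynomial.mem_aroots]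
    exact ⟨fun h => h.2, fun h => ⟨hmp, h⟩⟩
  have haR : a ∈ R := (hmemR a).2 (minpoly.aeval k a)
  have hgg : ∀ β : E, ∃ g : E ≃ₐ[k] E, β ∈ R → g a = β := by
    intro β
    by_cases hβ : β ∈ R
    · obtain ⟨g, hg⟩ := minpoly.exists_algEquiv_of_root (Algebra.IsAlgebraic.isAlgebraic a)
        ((hmemR β).1 hβ)
      exact ⟨g.symm, fun _ => by
        rw [AlgEquiv.symm_apply_eq]
        exact hg.symm⟩
    · exact ⟨1, fun h => absurd h hβ⟩
  choose gg hgg using hgg
  have hgR : ∀ (g : E ≃ₐ[k] E) (β : E), β ∈ R → g β ∈ R := by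
    intro g β hβ
    rw [hmemR] at hβ ⊢
    have h1 : Polynomial.aeval (g β) (minpoly k a) = g (Polynomial.aeval β (minpoly k a)) :=
      Polynomial.aeval_algHom_apply (g : E →ₐ[k] E) β (minpoly k a)
    rw [h1, hβ, map_zero]
  have hPsum : ∀ (S : Finset E) (f : E → U), (∀ i ∈ S, P (f i)) → P (∑ i ∈ S, f i) := by
    intro S f
    induction S using Finset.induction_on with
    | empty =>
      intro _
      rw [Finset.sum_empty]
      exact h0
    | insert i S hi ih =>
      intro h
      rw [Finset.sum_insert hi]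
      exact hadd _ _ (h i (Finset.mem_insert_self _ _))
        (ih fun j hj => h j (Finset.mem_insert_of_mem hj))
  -- the descended elements
  let zi : ℕ → U := fun i => ∑ β ∈ R, Φ (gg β) (algebraMap E U (a ^ i) * z)
  have hziJ : ∀ i, P (zi i) := fun i =>
    hPsum _ _ fun β _ => hact _ _ (hsmul (a ^ i) z hz)
  have hmul : ∀ (g g' : E ≃ₐ[k] E) (x : U), Φ (g * g') x = Φ g (Φ g' x) := by
    intro g g' x
    rw [map_mul]
    rfl
  have hfixi : ∀ (g : E ≃ₐ[k] E) (i : ℕ), g a = a →
      Φ g (algebraMap E U (a ^ i) * z) = algebraMap E U (a ^ i) * z := by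
    intro g i hg
    rw [map_mul, hconst, map_pow, hg, hfix g hg]
  have hzifix : ∀ i (g : E ≃ₐ[k] E), Φ g (zi i) = zi i := by
    intro i g
    change Φ g (∑ β ∈ R, Φ (gg β) (algebraMap E U (a ^ i) * z)) = _
    rw [map_sum]
    refine Finset.sum_nbij (fun β => g β) (fun β hβ => hgR g β hβ) (fun β _ β' _ h => g.injective h)
      ?_ ?_
    · intro β hβ
      refine ⟨g.symm β, hgR g.symm β hβ, ?_⟩
      exact g.apply_symm_apply β
    · intro β hβ
      have h1 : gg (g β) * ((gg (g β))⁻¹ * (g * gg β)) = g * gg β := mul_inv_cancel_left _ _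
      rw [← hmul, ← h1, hmul]
      congr 1
      apply hfixi
      change (gg (g β)).symm (g (gg β a)) = a
      rw [AlgEquiv.symm_apply_eq, hgg β hβ, hgg (g β) (hgR g β hβ)]
  have hziK : ∀ i, zi i ∈ L' := fun i => hL' _ (hziJ i) (hzifix i)
  -- interpolation
  let q : Polynomial E := ∏ β ∈ R.erase a, (Polynomial.X - Polynomial.C β)
  have hqβ : ∀ β ∈ R, β ≠ a → q.eval β = 0 := by
    intro β hβ hne
    change (∏ β ∈ R.erase a, (Polynomial.X - Polynomial.C β)).eval β = 0
    rw [Polynomial.eval_prod]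
    refine Finset.prod_eq_zero (Finset.mem_erase.2 ⟨hne, hβ⟩) ?_
    rw [Polynomial.eval_sub, Polynomial.eval_X, Polynomial.eval_C, sub_self]
  have hqa : q.eval a ≠ 0 := by
    change (∏ β ∈ R.erase a, (Polynomial.X - Polynomial.C β)).eval a ≠ 0
    rw [Polynomial.eval_prod, Finset.prod_ne_zero_iff]
    intro β hβ
    rw [Polynomial.eval_sub, Polynomial.eval_X, Polynomial.eval_C, sub_ne_zero]
    exact (Finset.mem_erase.1 hβ).1.symm
  have hzi2 : ∀ i, zi i = ∑ β ∈ R, algebraMap E U (β ^ i) * Φ (gg β) z := by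
    intro i
    refine Finset.sum_congr rfl fun β hβ => ?_
    rw [map_mul, hconst, map_pow, hgg β hβ]
  have hsum : ∑ i ∈ Finset.range (q.natDegree + 1), algebraMap E U (q.coeff i) * zi i =
      algebraMap E U (q.eval a) * z := by
    have h1 : ∀ i ∈ Finset.range (q.natDegree + 1), algebraMap E U (q.coeff i) * zi i =
        ∑ β ∈ R, algebraMap E U (q.coeff i * β ^ i) * Φ (gg β) z := by
      intro i _
      rw [hzi2, Finset.mul_sum]
      refine Finset.sum_congr rfl fun β _ => ?_
      rw [map_mul, mul_assoc]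
    rw [Finset.sum_congr rfl h1, Finset.sum_comm]
    have h2 : ∀ β ∈ R, ∑ i ∈ Finset.range (q.natDegree + 1),
        algebraMap E U (q.coeff i * β ^ i) * Φ (gg β) z = algebraMap E U (q.eval β) * Φ (gg β) z := by
      intro β _
      rw [← Finset.sum_mul, Polynomial.eval_eq_sum_range, map_sum]
    rw [Finset.sum_congr rfl h2, Finset.sum_eq_single_of_mem a haR]
    · rw [hfix (gg a) (hgg a haR)]
    · intro β hβ hne
      rw [hqβ β hβ hne, map_zero, zero_mul]
  have hz' : z = algebraMap E U (q.eval a)⁻¹ *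
      ∑ i ∈ Finset.range (q.natDegree + 1), algebraMap E U (q.coeff i) * zi i := by
    rw [hsum, ← mul_assoc, ← map_mul, inv_mul_cancel₀ hqa, map_one, one_mul]
  rw [hz']
  refine mul_mem (IntermediateField.algebraMap_mem _ _) (sum_mem fun i _ => ?_)
  exact mul_mem (IntermediateField.algebraMap_mem _ _) (hziK i)

end desc

section cyc

variable {E U : Type} [Field E] [Field U] [Algebra E U] {N : IntermediateField E U} {ℓ : ℕ}

/-- the trace of a cyclic automorphism -/
def tr79 (ι : U ≃+* U) (ℓ : ℕ) (z : U) : U := ∑ j ∈ Finset.range ℓ, (ι ^ j) z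

theorem pow_mem79 {ι : U ≃+* U} (hιN : ∀ z ∈ N, ι z ∈ N) (j : ℕ) : ∀ z ∈ N, (ι ^ j) z ∈ N := by
  induction j with
  | zero => exact fun z hz => hz
  | succ j ih =>
    intro z hz
    rw [pow_succ']
    exact hιN _ (ih z hz)

theorem tr_mem79 {ι : U ≃+* U} (hιN : ∀ z ∈ N, ι z ∈ N) {z : U} (hz : z ∈ N) :
    tr79 ι ℓ z ∈ N := sum_mem fun j _ => pow_mem79 hιN j z hz

theorem tr_fix79 {ι : U ≃+* U} (hιp : ∀ z ∈ N, (ι ^ ℓ) z = z) {z : U} (hz : z ∈ N) :
    ι (tr79 ι ℓ z) = tr79 ι ℓ z := by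
  rw [tr79, map_sum]
  have h1 : ∀ j : ℕ, ι ((ι ^ j) z) = (ι ^ (j + 1)) z := by
    intro j
    rw [pow_succ']
    rfl
  rw [Finset.sum_congr rfl fun j _ => h1 j]
  have h2 := Finset.sum_range_succ (fun j => (ι ^ j) z) ℓ
  have h3 := Finset.sum_range_succ' (fun j => (ι ^ j) z) ℓ
  rw [h2] at h3
  have h4 : (ι ^ ℓ) z = (ι ^ 0) z := by
    rw [hιp z hz]
    rfl
  rw [h4] at h3
  exact (add_right_cancel h3).symm

/-- an element of `N` is a combination of the powers of `r` and of elements fixed by `ι` -/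
theorem expand79 [CharZero U] {ι : U ≃+* U} (hℓ : 0 < ℓ) {ζ : U} (hζ : IsPrimitiveRoot ζ ℓ)
    (hιζ : ι ζ = ζ) {r : U} (hr0 : r ≠ 0) (hιr : ι r = ζ * r) (z : U) :
    z = (ℓ : U)⁻¹ * ∑ i ∈ Finset.range ℓ, r ^ i * tr79 ι ℓ (z * (r ^ i)⁻¹) := by
  have hpr : ∀ j : ℕ, (ι ^ j) r = ζ ^ j * r := by
    intro j
    induction j with
    | zero =>
      rw [pow_zero, pow_zero, one_mul]
      rfl
    | succ j ih =>
      have h1 : (ι ^ (j + 1)) r = ι ((ι ^ j) r) := by
        rw [pow_succ']
        rfl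
      rw [h1, ih, map_mul, map_pow, hιζ, hιr]
      ring
  have hζ0 : ζ ≠ 0 := hζ.ne_zero hℓ.ne'
  have h1 : ∀ i ∈ Finset.range ℓ, r ^ i * tr79 ι ℓ (z * (r ^ i)⁻¹) =
      ∑ j ∈ Finset.range ℓ, (ι ^ j) z * (ζ⁻¹ ^ j) ^ i := by
    intro i _
    rw [tr79, Finset.mul_sum]
    refine Finset.sum_congr rfl fun j _ => ?_
    rw [map_mul, map_inv₀, map_pow, hpr, mul_pow, mul_inv, inv_pow, inv_pow]
    have h5 : r ^ i ≠ 0 := pow_ne_zero _ hr0
    field_simp
  rw [Finset.sum_congr rfl h1, Finset.sum_comm]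
  have h2 : ∀ j ∈ Finset.range ℓ, ∑ i ∈ Finset.range ℓ, (ι ^ j) z * (ζ⁻¹ ^ j) ^ i =
      if j = 0 then (ℓ : U) * z else 0 := by
    intro j hj
    rw [← Finset.mul_sum]
    split_ifs with h
    · subst h
      simp only [pow_zero, one_pow, Finset.sum_const, Finset.card_range, nsmul_eq_mul, mul_one]
      rw [mul_comm]
      rfl
    · have h3 : ζ⁻¹ ^ j ≠ 1 := by
        intro h4
        exact h (Nat.eq_zero_of_dvd_of_lt ((hζ.inv.pow_eq_one_iff_dvd j).1 h4)
          (Finset.mem_range.1 hj))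
      have h4 : (∑ i ∈ Finset.range ℓ, (ζ⁻¹ ^ j) ^ i) * (ζ⁻¹ ^ j - 1) = 0 := by
        rw [geom_sum_mul, ← pow_mul, mul_comm j ℓ, pow_mul, hζ.inv.pow_eq_one, one_pow, sub_self]
      rw [(mul_eq_zero.1 h4).resolve_right (sub_ne_zero.2 h3), mul_zero]
  rw [Finset.sum_congr rfl h2, Finset.sum_ite_eq' (Finset.range ℓ) 0,
    if_pos (Finset.mem_range.2 hℓ)]
  have h5 : (ℓ : U) ≠ 0 := Nat.cast_ne_zero.2 hℓ.ne'
  rw [← mul_assoc, inv_mul_cancel₀ h5, one_mul]

end cyc

end

end Pool.Agent.PRL
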